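import Mathlib
import Pool.Agent.Helper28.NijDefs
import Pool.Agent.Helper36.Nij3.Uniq

/-!
# MP_835236_al: all admissible collections for `n = 3`
-/

open MvPolynomial

namespace Pool.Agent.Results.MP_835236_al.DimensionThree

open Pool.Agent.Helper28.Nij

/-- The collection `(x + y, x y + r, x r)` in the variables `x = X 0`, `y = X 1`, `z = X 2`, that is
`t³ + σ₁ t² + σ₂ t + σ₃ = (t + x)(t² + y t + r)`. -/
noncomputable def fac (r : MvPolynomial (Fin 3) ℝ) : Fin 3 → MvPolynomial (Fin 3) ℝ :=
  ![X 0 + X 1, X 0 * X 1 + r, X 0 * r]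

/-- The eight normal forms. -/
noncomputable def normalForm : Fin 8 → Fin 3 → MvPolynomial (Fin 3) ℝ :=
  ![fac (C (1 / 4) * X 1 ^ 2 - X 2 ^ 2),
    fac (C (1 / 4) * X 1 ^ 2 + X 2 ^ 2),
    fac (X 2 ^ 2),
    fac (-X 2 ^ 2),
    fac (X 0 * (X 1 - X 0) + X 2 ^ 2),
    fac (X 0 * (X 1 - X 0) - X 2 ^ 2),
    fac (X 0 * X 2),
    ![X 0, X 1 * X 2, X 1 ^ 3]]

/-- Complete classification for `n = 3`: the eight normal forms are admissible, no two of them are
linearly equivalent, and a collection of three real polynomials in three variables is admissible if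
and only if it is linearly equivalent to exactly one of them. -/
theorem result :
    (∀ i : Fin 8, Admissible (normalForm i)) ∧
    (∀ i j : Fin 8, LinEquiv (normalForm i) (normalForm j) → i = j) ∧
    ∀ σ : Fin 3 → MvPolynomial (Fin 3) ℝ, Admissible σ ↔ ∃! i : Fin 8, LinEquiv (normalForm i) σ :=
  ⟨fun i => (Pool.Agent.Helper36.Nij3.good_nf i).admissible,
    fun _ _ h => Pool.Agent.Helper36.Nij3.nf_inj h,
    fun σ => Pool.Agent.Helper36.Nij3.classification σ⟩

end Pool.Agent.Results.MP_835236_al.DimensionThree
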