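import Pool.Agent.LFD.All

/-!
# MP_835236_al: admissible collections and linear free divisors

For a collection `σ_1, …, σ_n` let `P = PP σ = t^n + σ_1 t^(n-1) + … + σ_n`, a polynomial in the variables
`x_i = X (some i)` and `t = X none`. The collection is admissible if and only if `t P = 0` is a linear
free divisor in `ℝ^(n+1)`, and the classification of the admissible collections up to linear changes of
the variables is the classification of the triples (linear free divisor in `ℝ^(n+1)`, hyperplane in it,
connected component of its complement).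
-/

open MvPolynomial

namespace Pool.Agent.Results.MP_835236_al.LinearFreeDivisors

open Pool.Agent.Helper28.Nij Pool.Agent.LFD

/-- (1) A collection is admissible if and only if `t P = 0` is a linear free divisor.

(2) Every triple (linear free divisor `h = 0`, linear factor `l = Σ a_i X_i` of `h`, point `q` with
`h(q) ≠ 0`) has an admissible collection `σ`: `Pres h a q σ` says that there is an invertible linear map
`B` which maps the point `x = 0, t = 1` to `q` with `l ∘ B = l(q) t` and `h ∘ B = h(q) t P`.

(3) The collections of two triples are linearly equivalent if and only if a linear map `B` takes one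
divisor and hyperplane to the other, with the two points in the same component of the complement. -/
theorem result :
    (∀ (n : ℕ) (σ : Fin n → MvPolynomial (Fin n) ℝ), Admissible σ ↔ LinFree (X none * PP σ)) ∧
    (∀ (n : ℕ) (h : MvPolynomial (Option (Fin n)) ℝ), LinFree h → ∀ a q : Option (Fin n) → ℝ,
      (∑ i, C (a i) * X i) ∣ h → eval q h ≠ 0 →
        ∃ σ : Fin n → MvPolynomial (Fin n) ℝ, Admissible σ ∧ Pres h a q σ) ∧
    ∀ (n : ℕ) (h h' : MvPolynomial (Option (Fin n)) ℝ) (a a' q q' : Option (Fin n) → ℝ)
      (σ τ : Fin n → MvPolynomial (Fin n) ℝ), LinFree h → LinFree h' →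
      (∑ i, C (a i) * X i) ∣ h → (∑ i, C (a' i) * X i) ∣ h' → Pres h a q σ → Pres h' a' q' τ →
      (LinEquiv σ τ ↔ ∃ B : Matrix (Option (Fin n)) (Option (Fin n)) ℝ, IsUnit B.det ∧
        (∃ c : ℝ, sub B h = C c * h') ∧
        (∃ c : ℝ, sub B (∑ i, C (a i) * X i) = C c * ∑ i, C (a' i) * X i) ∧
        JoinedIn {v | eval v h ≠ 0} q (B.mulVec q')) := by
  refine ⟨all_MainA, ?_, all_Iso⟩
  intro n h hh a q hl hq
  obtain ⟨B, σ, h1, h2, h3, h4, h5⟩ := all_Tri n h hh a q hl hq
  exact ⟨σ, h5, hq, B, h1, h2, h3, h4⟩

end Pool.Agent.Results.MP_835236_al.LinearFreeDivisors
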