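import Pool.Agent.LFS.All

/-!
# MP_835236_al: admissible collections with many irreducible factors

For a collection `σ_1, …, σ_n` let `P = PP σ = t^n + σ_1 t^(n-1) + … + σ_n`, a polynomial in the variables
`x_i = X (some i)` and `t = X none`, and let `nf σ` be the number of its irreducible factors.
-/

open MvPolynomial

namespace Pool.Agent.Results.MP_835236_al.ManyFactors

open Pool.Agent.Helper28.Nij Pool.Agent.LFD Pool.Agent.LFS

/-- (1) Splitting, for all `n`: an admissible collection whose polynomial `P` has `m = nf σ` irreducible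
factors is a direct sum of `card J ≥ 3 m - 2 n` admissible collections of positive dimensions `s j`, at
least `4 m - 3 n` of which are one-dimensional.

(2) This is sharp: for every `d ≥ 1` there is an admissible collection with `n = 3 d + 1` and
`m = 2 d + 1` which is not a direct sum of two or more collections of positive dimensions.

(3) The complete list of the admissible collections with `m ≥ n - 1`, for all `n`: these are the collections
which are linearly equivalent to exactly one of those with `P = NF n k`, `k < 8` (where the core of number `k`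
has `dm k ≤ n` variables), and for all `k` with `dm k ≤ n` the collection with `P = NF n k` exists and is
admissible with `m ≥ n - 1`. -/
theorem result :
    (∀ (n : ℕ) (σ : Fin n → MvPolynomial (Fin n) ℝ), Admissible σ →
      ∃ (J : Type) (_ : Fintype J) (s : J → ℕ) (α : ∀ j, Fin (s j) → MvPolynomial (Fin (s j)) ℝ),
        (∀ j, 0 < s j ∧ Admissible (α j)) ∧ IsSum σ s α ∧ 3 * nf σ ≤ 2 * n + Fintype.card J ∧
          4 * nf σ ≤ 3 * n + Nat.card {j // s j = 1}) ∧
    (∀ d : ℕ, 1 ≤ d → ∃ σ : Fin (3 * d + 1) → MvPolynomial (Fin (3 * d + 1)) ℝ,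
      Admissible σ ∧ nf σ = 2 * d + 1 ∧
        ∀ (J : Type) [Fintype J] (s : J → ℕ) (α : ∀ j, Fin (s j) → MvPolynomial (Fin (s j)) ℝ),
          (∀ j, 0 < s j) → IsSum σ s α → Fintype.card J = 1) ∧
    ∀ n : ℕ,
      (∀ k : Fin 8, dm k ≤ n → ∃ τ : Fin n → MvPolynomial (Fin n) ℝ,
        Admissible τ ∧ PP τ = NF n k ∧ n ≤ nf τ + 1) ∧
      ∀ σ : Fin n → MvPolynomial (Fin n) ℝ,
        (Admissible σ ∧ n ≤ nf σ + 1) ↔
          ∃! k : Fin 8, dm k ≤ n ∧
            ∃ τ : Fin n → MvPolynomial (Fin n) ℝ, LinEquiv σ τ ∧ PP τ = NF n k :=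
  ⟨all_P1, thm_Shp, fun n => ⟨fun k hk => all_Nfa n k hk, all_P2 n⟩⟩

end Pool.Agent.Results.MP_835236_al.ManyFactors
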