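import Pool.Agent.RRC.All
import Pool.Agent.RRC.All3

/-!
# MP_835236_al: all real-rooted admissible collections, for every `n`

`σ_1, …, σ_n` is real-rooted if all zeros of `P = t^n + σ_1(x) t^(n-1) + … + σ_n(x)` are real, for every
`x ∈ ℝ^n`. The real-rooted admissible collections are classified by the finite acyclic digraphs with
marked vertices which have exactly `n` paths.
-/

open MvPolynomial

namespace Pool.Agent.Results.MP_835236_al.RealRooted

open Pool.Agent.Helper28.Nij Pool.Agent.RRC

/-- The quadratic form `tr L² = σ_1² - 2 σ_2` (`σ_k = 0` for `k > n`). -/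
noncomputable def trSq {n : ℕ} (σ : Fin n → MvPolynomial (Fin n) ℝ) : MvPolynomial (Fin n) ℝ :=
  (∑ k : Fin n, if (k : ℕ) = 0 then σ k else 0) ^ 2 -
    2 * ∑ k : Fin n, if (k : ℕ) = 1 then σ k else 0

/-- (1) An admissible collection is real-rooted if and only if the quadratic form `tr L²` is
positive definite. (2) The admissible collections with these properties are those which are linearly
equivalent to the collection of a marked acyclic digraph with `n` paths. (3) Two such collections are
linearly equivalent if and only if the digraphs are isomorphic. -/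
theorem result :
    (∀ (n : ℕ) (σ : Fin n → MvPolynomial (Fin n) ℝ), Admissible σ →
      (RealRooted σ ↔ ∀ x : Fin n → ℝ, x ≠ 0 → 0 < eval x (trSq σ))) ∧
    (∀ (n : ℕ) (σ : Fin n → MvPolynomial (Fin n) ℝ), (Admissible σ ∧ RealRooted σ) ↔
      ∃ (D : Dig) (e : Fin n ≃ D.Path), LinEquiv (D.sig e) σ) ∧
    ∀ (n : ℕ) (D D' : Dig) (e : Fin n ≃ D.Path) (e' : Fin n ≃ D'.Path),
      LinEquiv (D.sig e) (D'.sig e') ↔ D.Iso D' :=
  ⟨all3, all_main.1, all_main.2⟩

end Pool.Agent.Results.MP_835236_al.RealRooted
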